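import Pool.Agent.Q74.GO.Stm2
import Pool.Agent.Q16.GO.Van

/-! # Project GO of helper74, second part: a test function which lives on good configurations -/

set_option autoImplicit false

namespace Pool.Agent.Q121.GO

open Finset MeasureTheory ProbabilityTheory Filter Topology
open Pool.Agent.Q74.KP Pool.Agent.Q74.SF Pool.Agent.Q74.GO

variable {k : ℕ}

open Classical in
/-- the penalty for a large sum and for small gaps -/
noncomputable def pn (N : ℝ) (x : Fin k → ℝ) : ℝ :=
  max 0 (4 / N * (∑ i, |x i|) - 1) + ∑ i, ∑ j, if i = j then 0 else max 0 (2 - N / 2 * |x j - x i|)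

theorem pn_term_nonneg (N : ℝ) (x : Fin k → ℝ) (i j : Fin k) [Decidable (i = j)] :
    0 ≤ if i = j then 0 else max 0 (2 - N / 2 * |x j - x i|) := by
  split_ifs
  · exact le_rfl
  · exact le_max_left _ _

theorem pn_nonneg (N : ℝ) (x : Fin k → ℝ) : 0 ≤ pn N x := by
  classical
  unfold pn
  refine add_nonneg (le_max_left _ _) (sum_nonneg fun i _ => sum_nonneg fun j _ => ?_)
  exact pn_term_nonneg N x i j

theorem pn_sy (N : ℝ) : Sy (pn (k := k) N) := by
  classical
  intro π x
  unfold pn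
  have h1 : ∑ i, |(x ∘ π) i| = ∑ i, |x i| := Equiv.sum_comp π (fun i => |x i|)
  rw [h1]
  congr 1
  rw [← Equiv.sum_comp π (fun i => ∑ j, if i = j then 0 else max 0 (2 - N / 2 * |x j - x i|))]
  refine sum_congr rfl fun i _ => ?_
  rw [← Equiv.sum_comp π (fun j => if π i = j then 0 else max 0 (2 - N / 2 * |x j - x (π i)|))]
  refine sum_congr rfl fun j _ => ?_
  simp only [Function.comp, π.injective.eq_iff]

theorem abs_max_zero (a b : ℝ) : |max 0 a - max 0 b| ≤ |a - b| := by
  have h := abs_max_sub_max_le_max 0 a 0 b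
  rwa [sub_self, abs_zero, max_eq_right (abs_nonneg (a - b))] at h

theorem pn_lip {N : ℝ} (hN : 0 < N) (x y : Fin k → ℝ) :
    |pn N x - pn N y| ≤ (4 / N + N * k) * ∑ i, |x i - y i| := by
  classical
  unfold pn
  set T : ℝ := ∑ i, |x i - y i| with hT
  have h1 : |max 0 (4 / N * (∑ i, |x i|) - 1) - max 0 (4 / N * (∑ i, |y i|) - 1)| ≤ 4 / N * T := by
    refine (abs_max_zero _ _).trans ?_
    have e : 4 / N * (∑ i, |x i|) - 1 - (4 / N * (∑ i, |y i|) - 1) = 4 / N * ∑ i, (|x i| - |y i|) := by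
      rw [sum_sub_distrib]
      ring
    rw [e, abs_mul, abs_of_pos (by positivity : 0 < 4 / N)]
    apply mul_le_mul_of_nonneg_left _ (by positivity)
    exact (abs_sum_le_sum_abs _ _).trans (sum_le_sum fun i _ => abs_abs_sub_abs_le _ _)
  have h2 : ∀ i j : Fin k, |(if i = j then 0 else max 0 (2 - N / 2 * |x j - x i|)) -
      (if i = j then 0 else max 0 (2 - N / 2 * |y j - y i|))| ≤ N / 2 * (|x j - y j| + |x i - y i|) := by
    intro i j
    split_ifs
    · rw [sub_self, abs_zero]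
      positivity
    · refine (abs_max_zero _ _).trans ?_
      have e : 2 - N / 2 * |x j - x i| - (2 - N / 2 * |y j - y i|) = N / 2 * (|y j - y i| - |x j - x i|) := by
        ring
      rw [e, abs_mul, abs_of_pos (by positivity : 0 < N / 2)]
      apply mul_le_mul_of_nonneg_left _ (by positivity)
      refine (abs_abs_sub_abs_le _ _).trans ?_
      have e2 : y j - y i - (x j - x i) = -((x j - y j) - (x i - y i)) := by ring
      rw [e2, abs_neg]
      exact abs_sub _ _
  have h3 : |(∑ i, ∑ j, if i = j then 0 else max 0 (2 - N / 2 * |x j - x i|)) -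
      ∑ i, ∑ j, if i = j then 0 else max 0 (2 - N / 2 * |y j - y i|)| ≤ N * k * T := by
    rw [← sum_sub_distrib]
    refine (abs_sum_le_sum_abs _ _).trans ?_
    have h4 : ∀ i : Fin k, |(∑ j, if i = j then 0 else max 0 (2 - N / 2 * |x j - x i|)) -
        ∑ j, if i = j then 0 else max 0 (2 - N / 2 * |y j - y i|)| ≤ N / 2 * (T + k * |x i - y i|) := by
      intro i
      rw [← sum_sub_distrib]
      refine (abs_sum_le_sum_abs _ _).trans ((sum_le_sum fun j _ => h2 i j).trans_eq ?_)
      rw [← mul_sum, sum_add_distrib, sum_const, card_univ, Fintype.card_fin, nsmul_eq_mul]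
    refine (sum_le_sum fun i _ => h4 i).trans_eq ?_
    rw [← mul_sum, sum_add_distrib, sum_const, card_univ, Fintype.card_fin, nsmul_eq_mul, ← mul_sum]
    ring
  have e : max 0 (4 / N * (∑ i, |x i|) - 1) + (∑ i, ∑ j, if i = j then 0 else max 0 (2 - N / 2 * |x j - x i|)) -
      (max 0 (4 / N * (∑ i, |y i|) - 1) + ∑ i, ∑ j, if i = j then 0 else max 0 (2 - N / 2 * |y j - y i|)) =
      (max 0 (4 / N * (∑ i, |x i|) - 1) - max 0 (4 / N * (∑ i, |y i|) - 1)) +
      ((∑ i, ∑ j, if i = j then 0 else max 0 (2 - N / 2 * |x j - x i|)) -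
      ∑ i, ∑ j, if i = j then 0 else max 0 (2 - N / 2 * |y j - y i|)) := by ring
  rw [e]
  refine (abs_add_le _ _).trans ?_
  linarith

/-- the cut off of a test function -/
noncomputable def ct (N : ℝ) (G : (Fin k → ℝ) → ℝ) (x : Fin k → ℝ) : ℝ := max 0 (G x - pn N x)

theorem ct_nonneg (N : ℝ) (G : (Fin k → ℝ) → ℝ) (x : Fin k → ℝ) : 0 ≤ ct N G x := le_max_left _ _

theorem ct_le (N : ℝ) {G : (Fin k → ℝ) → ℝ} (hG : ∀ x, 0 ≤ G x) (x : Fin k → ℝ) : ct N G x ≤ G x :=
  max_le (hG x) (by linarith [pn_nonneg N x])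

theorem ct_tf {N Λ : ℝ} (hN : 0 < N) {G : (Fin k → ℝ) → ℝ} (hT : Tf Λ G) (hG : ∀ x, 0 ≤ G x) :
    Tf (Λ + (4 / N + N * k)) (ct N G) := by
  refine ⟨fun π x => ?_, fun x => ?_, fun x y => ?_⟩
  · unfold ct
    rw [hT.1 π x, pn_sy N π x]
  · rw [abs_of_nonneg (ct_nonneg N G x)]
    exact (ct_le N hG x).trans ((le_abs_self _).trans (hT.2.1 x))
  · refine (abs_max_zero _ _).trans ?_
    have e : G x - pn N x - (G y - pn N y) = (G x - G y) - (pn N x - pn N y) := by ring
    rw [e]
    refine (abs_sub _ _).trans ?_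
    have h1 := hT.2.2 x y
    have h2 := pn_lip hN x y
    linarith

theorem ct_supp {N : ℝ} (hN : 0 < N) {G : (Fin k → ℝ) → ℝ} (hG1 : ∀ x, |G x| ≤ 1) {x : Fin k → ℝ}
    (hx : ct N G x ≠ 0) : ∑ i, |x i| ≤ N / 2 ∧ ∀ i j, i ≠ j → 2 / N ≤ |x i - x j| := by
  classical
  have h0 : 0 < G x - pn N x := by
    by_contra hcon
    rw [not_lt] at hcon
    exact hx (max_eq_left hcon)
  have h1 : pn N x < 1 := by
    have := (le_abs_self _).trans (hG1 x)
    linarith
  have hA : 0 ≤ max 0 (4 / N * (∑ i, |x i|) - 1) := le_max_left _ _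
  have hB : 0 ≤ ∑ i, ∑ j, if i = j then 0 else max 0 (2 - N / 2 * |x j - x i|) :=
    sum_nonneg fun i _ => sum_nonneg fun j _ => pn_term_nonneg N x i j
  unfold pn at h1
  constructor
  · have h2 : 4 / N * (∑ i, |x i|) - 1 ≤ max 0 (4 / N * (∑ i, |x i|) - 1) := le_max_right _ _
    have h3 : 4 / N * (∑ i, |x i|) ≤ 2 := by linarith
    rw [div_mul_eq_mul_div, div_le_iff₀ hN] at h3
    linarith
  · intro i j hij
    have h2 : max 0 (2 - N / 2 * |x j - x i|) ≤ ∑ i, ∑ j, if i = j then 0 else max 0 (2 - N / 2 * |x j - x i|) := by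
      have h3 : (if i = j then 0 else max 0 (2 - N / 2 * |x j - x i|)) ≤
          ∑ j, if i = j then 0 else max 0 (2 - N / 2 * |x j - x i|) :=
        single_le_sum (f := fun j => if i = j then 0 else max 0 (2 - N / 2 * |x j - x i|))
          (fun j _ => pn_term_nonneg N x i j) (mem_univ j)
      rw [if_neg hij] at h3
      exact h3.trans (single_le_sum (f := fun i => ∑ j, if i = j then 0 else max 0 (2 - N / 2 * |x j - x i|))
        (fun i _ => sum_nonneg fun j _ => pn_term_nonneg N x i j) (mem_univ i))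
    have h3 : 2 - N / 2 * |x j - x i| ≤ max 0 (2 - N / 2 * |x j - x i|) := le_max_right _ _
    have h4 : 2 - N / 2 * |x j - x i| ≤ 1 := by linarith
    rw [abs_sub_comm, div_le_iff₀ hN]
    linarith

theorem vR_zero {x : Fin k → ℝ} {i j : Fin k} (hij : i ≠ j) (h : x i = x j) : vR x = 0 := by
  unfold vR
  rcases lt_or_gt_of_ne hij with hl | hl
  · exact prod_eq_zero (mem_univ i) (prod_eq_zero (mem_Ioi.2 hl) (by rw [h, sub_self]))
  · exact prod_eq_zero (mem_univ j) (prod_eq_zero (mem_Ioi.2 hl) (by rw [h, sub_self]))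

theorem ct_eventually {G : (Fin k → ℝ) → ℝ} (hG : ∀ x, 0 ≤ G x) (hGv : ∀ x, G x ≤ |vR x|) (x : Fin k → ℝ) :
    ∀ᶠ N : ℕ in atTop, ct (N : ℝ) G x = G x := by
  classical
  by_cases hx : ∃ i j, i ≠ j ∧ x i = x j
  · obtain ⟨i, j, hij, h⟩ := hx
    have h0 : G x = 0 := by
      have h1 := hGv x
      rw [vR_zero hij h, abs_zero] at h1
      exact le_antisymm h1 (hG x)
    refine Eventually.of_forall fun N => ?_
    exact le_antisymm (ct_le _ hG x) (by rw [h0]; exact ct_nonneg _ _ _)
  · push Not at hx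
    have h1 : ∀ᶠ N : ℕ in atTop, 4 * (∑ i, |x i|) ≤ (N : ℝ) := by
      obtain ⟨n, hn⟩ := exists_nat_ge (4 * (∑ i, |x i|))
      filter_upwards [eventually_ge_atTop n] with N hN
      exact hn.trans (by exact_mod_cast hN)
    have h2 : ∀ᶠ N : ℕ in atTop, ∀ i ∈ (univ : Finset (Fin k)), ∀ j ∈ (univ : Finset (Fin k)), i ≠ j →
        2 ≤ (N : ℝ) / 2 * |x j - x i| := by
      rw [eventually_all_finset]
      intro i _
      rw [eventually_all_finset]
      intro j _
      by_cases hij : i = j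
      · exact Eventually.of_forall fun N h => absurd hij h
      · have hpos : 0 < |x j - x i| := abs_pos.2 (sub_ne_zero.2 (hx i j hij).symm)
        obtain ⟨n, hn⟩ := exists_nat_ge (4 / |x j - x i|)
        filter_upwards [eventually_ge_atTop n] with N hN _
        have h3 : 4 / |x j - x i| ≤ (N : ℝ) := hn.trans (by exact_mod_cast hN)
        rw [div_le_iff₀ hpos] at h3
        linarith
    filter_upwards [h1, h2, eventually_ge_atTop 1] with N hN1 hN2 hN3
    have hN0 : (0 : ℝ) < N := by exact_mod_cast hN3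
    have e1 : max 0 (4 / (N : ℝ) * (∑ i, |x i|) - 1) = 0 := by
      apply max_eq_left
      have : 4 / (N : ℝ) * (∑ i, |x i|) ≤ 1 := by
        rw [div_mul_eq_mul_div, div_le_one hN0]
        exact hN1
      linarith
    have e2 : ∑ i, ∑ j, (if i = j then 0 else max 0 (2 - (N : ℝ) / 2 * |x j - x i|)) = 0 := by
      apply sum_eq_zero
      intro i _
      apply sum_eq_zero
      intro j _
      split_ifs with h
      · rfl
      · apply max_eq_left
        have := hN2 i (mem_univ i) j (mem_univ j) h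
        linarith
    have e3 : pn (N : ℝ) x = 0 := by
      unfold pn
      rw [e1, e2, add_zero]
    unfold ct
    rw [e3, sub_zero, max_eq_right (hG x)]

theorem cont_vR : Continuous (vR (k := k)) := by
  unfold vR
  refine continuous_finsetProd _ fun i _ => continuous_finsetProd _ fun j _ => ?_
  exact (continuous_apply j).sub (continuous_apply i)

/-- a test function below the Vandermonde product which lives on good configurations -/
theorem exists_cut (hGau : S_Gau) (k : ℕ) : ∃ (A₀ Λ : ℝ) (G : (Fin k → ℝ) → ℝ), 2 ≤ A₀ ∧ 0 ≤ Λ ∧ Tf Λ G ∧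
    (∀ x, 0 ≤ G x) ∧ (∀ x, G x ≤ |vR x|) ∧ 0 < GI G ∧
    ∀ x, G x ≠ 0 → ∑ i, |x i| ≤ A₀ / 2 ∧ ∀ i j, i ≠ j → 2 / A₀ ≤ |x i - x j| := by
  obtain ⟨-, -, Λ, G, hΛ, hT, hG0, hGv, hGI⟩ := hGau k
  have hcont := Tf_cont hΛ hT
  have hint : Integrable (fun x => G x * |vR x|) (gm k) := by
    by_contra hcon
    unfold GI at hGI
    rw [integral_undef hcon] at hGI
    exact lt_irrefl _ hGI
  have hlim : Tendsto (fun N : ℕ => GI (ct (N : ℝ) G)) atTop (𝓝 (GI G)) := by
    unfold GI
    -- the sequence is shifted, so that all the functions are continuous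
    rw [← tendsto_add_atTop_iff_nat 1]
    refine tendsto_integral_of_dominated_convergence (fun x => G x * |vR x|) ?_ hint ?_ ?_
    · intro N
      have hN : (0 : ℝ) < ((N + 1 : ℕ) : ℝ) := by exact_mod_cast Nat.succ_pos N
      have hΛ' : 0 ≤ Λ + (4 / ((N + 1 : ℕ) : ℝ) + ((N + 1 : ℕ) : ℝ) * k) := by positivity
      exact ((Tf_cont hΛ' (ct_tf hN hT hG0)).mul cont_vR.abs).aestronglyMeasurable
    · intro N
      refine Eventually.of_forall fun x => ?_
      rw [Real.norm_eq_abs, abs_mul, abs_abs, abs_of_nonneg (ct_nonneg _ _ _)]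
      exact mul_le_mul_of_nonneg_right (ct_le _ hG0 x) (abs_nonneg _)
    · refine Eventually.of_forall fun x => ?_
      apply tendsto_nhds_of_eventually_eq
      have h1 := (tendsto_add_atTop_nat 1).eventually (ct_eventually hG0 hGv x)
      filter_upwards [h1] with N hN
      rw [hN]
  obtain ⟨N, hN1, hN2⟩ := ((hlim.eventually (lt_mem_nhds hGI)).and (eventually_ge_atTop 2)).exists
  have hN0 : (0 : ℝ) < N := by
    have : 0 < N := by omega
    exact_mod_cast this
  refine ⟨N, Λ + (4 / (N : ℝ) + (N : ℝ) * k), ct (N : ℝ) G, by exact_mod_cast hN2, by positivity,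
    ct_tf hN0 hT hG0, ct_nonneg _ _, fun x => (ct_le _ hG0 x).trans (hGv x), hN1, fun x hx => ?_⟩
  exact ct_supp hN0 hT.2.1 hx

end Pool.Agent.Q121.GO
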