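import Pool.Agent.Q121.GO.Cut
import Pool.Agent.Q16.GO.Main
import Pool.Agent.Q225.GO.Low

/-! # Project GO of helper74, second part: the lower bound for the good configurations (JOB GO-Low2) -/

set_option autoImplicit false

namespace Pool.Agent.Q121.GO

open Finset MeasureTheory ProbabilityTheory Filter Topology
open Pool.Agent.Q74.KP Pool.Agent.Q74.SF Pool.Agent.Q74.GO Pool.Agent.Q16.GO
open Pool.Agent.Q74.AR (oc bE Td ocd)

variable {k : ℕ}

theorem gi_nonneg (A A' : ℝ) (t : ℕ) (z : Fin k → ℤ) : 0 ≤ gi A A' t z := by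
  unfold gi
  split_ifs <;> norm_num

theorem gi_le_one (A A' : ℝ) (t : ℕ) (z : Fin k → ℤ) : gi A A' t z ≤ 1 := by
  unfold gi
  split_ifs <;> norm_num

/-- the Vandermonde product of a good configuration -/
theorem vd_good {A A' : ℝ} (hA' : 0 < A') {s : ℕ} {z : Fin k → ℤ} (h : Gd A A' s z) :
    (√(s : ℝ) / A') ^ nn k ≤ |vd z| := by
  unfold vd vR
  rw [abs_prod, ← card_pairs k, ← prod_pow_eq_pow_sum]
  refine prod_le_prod (fun i _ => by positivity) fun i _ => ?_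
  rw [abs_prod, ← prod_const]
  refine prod_le_prod (fun j _ => by positivity) fun j hj => ?_
  rw [mem_Ioi] at hj
  exact h.2 j i hj.ne'

/-- the average of the indicator of the good configurations -/
theorem ev_gi_le {ι : Type} [Fintype ι] (a : ι → Fin k → ℕ) (b : ι → Fin k → ℤ) {A A' : ℝ} (hA' : 0 < A') {s : ℕ}
    (hs : 1 ≤ s) : ev a b s (gi A A' s) ≤ A' ^ nn k * hg A A' a b s := by
  have hs0 : 0 < √(s : ℝ) := Real.sqrt_pos.2 (by exact_mod_cast hs)
  have h1 : ev a b s (gi A A' s) ≤ ev a b s (fun z => (A' ^ nn k / √(s : ℝ) ^ nn k) * (gi A A' s z * |vd z|)) := by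
    apply ev_mono
    intro z
    unfold gi
    split_ifs with h
    · have h2 := vd_good hA' h
      rw [div_pow, div_le_iff₀ (by positivity)] at h2
      rw [one_mul, div_mul_eq_mul_div, one_le_div (by positivity)]
      linarith
    · simp
  rw [ev_mul] at h1
  refine h1.trans_eq ?_
  unfold hg
  ring

/-- the test function lives on good configurations -/
theorem test_le {A₀ A A' : ℝ} (hA₀ : 2 ≤ A₀) (hA : A₀ ≤ A) (hA' : A₀ ≤ A') {G : (Fin k → ℝ) → ℝ}
    (hGv : ∀ x, G x ≤ |vR x|)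
    (hsup : ∀ x, G x ≠ 0 → ∑ i, |x i| ≤ A₀ / 2 ∧ ∀ i j, i ≠ j → 2 / A₀ ≤ |x i - x j|)
    {t : ℕ} (ht : 1 ≤ t) (z : Fin k → ℤ) :
    G (rs t z) ≤ (√(t : ℝ) ^ nn k)⁻¹ * (gi A A' t z * |vd z|) := by
  have ht0 : 0 < √(t : ℝ) := Real.sqrt_pos.2 (by exact_mod_cast ht)
  by_cases h0 : G (rs t z) = 0
  · rw [h0]
    have := gi_nonneg A A' t z
    positivity
  · obtain ⟨h1, h2⟩ := hsup _ h0
    have hgd : Gd A A' t z := by
      constructor
      · unfold wt
        have e : (∑ i, |(z i : ℝ) - (t : ℝ) / 2|) / √(t : ℝ) = ∑ i, |rs t z i| := by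
          unfold rs
          rw [sum_div]
          refine sum_congr rfl fun i _ => ?_
          rw [abs_div, abs_of_pos ht0]
        rw [e]
        linarith
      · intro i j hij
        have h3 := h2 i j hij
        have e : rs t z i - rs t z j = ((z i : ℝ) - z j) / √(t : ℝ) := by
          unfold rs
          rw [← sub_div]
          congr 1
          ring
        rw [e, abs_div, abs_of_pos ht0, le_div_iff₀ ht0] at h3
        have h4 : 1 / A' ≤ 2 / A₀ := by
          rw [div_le_div_iff₀ (by linarith) (by linarith)]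
          linarith
        calc √(t : ℝ) / A' = 1 / A' * √(t : ℝ) := by ring
          _ ≤ 2 / A₀ * √(t : ℝ) := mul_le_mul_of_nonneg_right h4 ht0.le
          _ ≤ _ := h3
    have e : gi A A' t z = 1 := by
      unfold gi
      rw [if_pos hgd]
    rw [e, one_mul, ← Pool.Agent.Q225.GO.abs_vR_rs]
    exact hGv _

/-- JOB GO-Low2 -/
theorem low2 : S_Low2J := by
  intro hMk hSy hFar hScal hWt hGau k
  obtain ⟨A₀, Λ, G, hA₀, hΛ, hG, hG0, hGv, hGI, hsup⟩ := exists_cut hGau k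
  obtain ⟨CF, hCF, hFar⟩ := hFar k 0
  obtain ⟨κ₀, hκ₀, hScal⟩ := hScal k
  obtain ⟨CW, hCW, hWt⟩ := hWt k 1
  obtain ⟨V, hVdef⟩ : ∃ V : ℝ, V = vd (dl k) := ⟨_, rfl⟩
  have hV : 0 < V := by
    rw [hVdef]
    exact vd_dl_pos k
  obtain ⟨J, hJ⟩ : ∃ J : ℝ, J = κ₀ * GI G := ⟨_, rfl⟩
  have hJ0 : 0 < J := by
    rw [hJ]
    positivity
  obtain ⟨c₁, hc₁⟩ : ∃ c₁ : ℝ, c₁ = min 1 (J / (8 * V)) := ⟨_, rfl⟩
  have hc₁0 : 0 < c₁ := by
    rw [hc₁]
    positivity
  have hc₁1 : c₁ ≤ 1 := by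
    rw [hc₁]
    exact min_le_left _ _
  have hc₁2 : c₁ ≤ J / (8 * V) := by
    rw [hc₁]
    exact min_le_right _ _
  refine ⟨c₁, hc₁0, hc₁1, A₀, by linarith, fun A A' hA hA' => ?_⟩
  have hA1 : 2 ≤ A := hA₀.trans hA
  have hA1' : 2 ≤ A' := hA₀.trans hA'
  have hApos : 0 < A := by linarith
  have hApos' : 0 < A' := by linarith
  -- the constant of the error of the comparison with `dl k`
  obtain ⟨D, hD⟩ : ∃ D : ℝ, D = CF * (1 + k) * A ^ (nn k + 1) * A' ^ nn k := ⟨_, rfl⟩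
  have hD0 : 0 < D := by
    rw [hD]
    positivity
  obtain ⟨l₁, hl₁⟩ := exists_nat_ge (4 * Λ * CW / J + (4 * V * D / J) ^ 2)
  refine ⟨l₁ + 1, Nat.le_add_left 1 l₁, fun L₂ hL₂ => ?_⟩
  have hLpos : (0 : ℝ) < L₂ := by
    have : 0 < L₂ := lt_of_lt_of_le (Nat.succ_pos _) hL₂
    exact_mod_cast this
  obtain ⟨ε, hε⟩ : ∃ ε : ℝ, ε = c₁ / (A' ^ nn k * √(L₂ : ℝ) ^ nn k) := ⟨_, rfl⟩
  have hsL : 0 < √(L₂ : ℝ) := Real.sqrt_pos.2 hLpos
  have hε0 : 0 < ε := by
    rw [hε]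
    positivity
  obtain ⟨ρ, hρ, r₀, hMk⟩ := hMk k Λ ε hΛ hε0
  have hsc := hScal Λ G hΛ hG
  obtain ⟨r₁, hr₁⟩ := (Metric.tendsto_atTop.1 hsc) (J / 8) (by positivity)
  obtain ⟨r₂, hr₂⟩ := exists_nat_ge ((8 * Λ * CW * k / J) ^ 2)
  refine ⟨ρ, hρ, max 1 (max r₀ (max r₁ r₂)), le_max_left _ _, ?_⟩
  intro s r hs hsr1 hsr2 ι _ a b
  have hs1 : 1 ≤ s := (le_max_left _ _).trans hs
  have hsr : s ≤ r := (Nat.le_mul_of_pos_left s (Nat.succ_pos _)).trans hsr1
  have hr1 : 1 ≤ r := hs1.trans hsr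
  have hrb : max 1 (max r₀ (max r₁ r₂)) ≤ r := hs.trans hsr
  have hrr₀ : r₀ ≤ r := ((le_max_left _ _).trans (le_max_right _ _)).trans hrb
  have hrr₁ : r₁ ≤ r := ((le_max_left _ _).trans ((le_max_right _ _).trans (le_max_right _ _))).trans hrb
  have hrr₂ : r₂ ≤ r := ((le_max_right _ _).trans ((le_max_right _ _).trans (le_max_right _ _))).trans hrb
  have hr0 : (0 : ℝ) < r := by exact_mod_cast hr1
  have hs0 : (0 : ℝ) < s := by exact_mod_cast hs1
  have hrs0 : 0 < √(r : ℝ) := Real.sqrt_pos.2 hr0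
  have hss0 : 0 < √(s : ℝ) := Real.sqrt_pos.2 hs0
  have hsr' : √((s : ℝ) / r) = √(s : ℝ) / √(r : ℝ) := Real.sqrt_div hs0.le _
  obtain ⟨q, hq⟩ : ∃ q : ℝ, q = (s : ℝ) / r := ⟨_, rfl⟩
  have hq0 : 0 < q := by
    rw [hq]
    positivity
  have hlamR : ((l₁ : ℝ) + 1) * s ≤ r := by exact_mod_cast hsr1
  have hL2R : (r : ℝ) ≤ L₂ * s := by exact_mod_cast hsr2
  have hq1 : q * ((l₁ : ℝ) + 1) ≤ 1 := by
    rw [hq, div_mul_eq_mul_div, div_le_one hr0]
    linarith
  have hl1 : 4 * Λ * CW / J ≤ l₁ := by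
    have : 0 ≤ (4 * V * D / J) ^ 2 := sq_nonneg _
    linarith
  have hl2 : (4 * V * D / J) ^ 2 ≤ l₁ := by
    have : 0 ≤ 4 * Λ * CW / J := by positivity
    linarith
  have hql : q * l₁ ≤ 1 := by nlinarith
  have b1 : Λ * CW * q ≤ J / 4 := by
    rw [div_le_iff₀ hJ0] at hl1
    have h2 := mul_le_mul_of_nonneg_left hl1 hq0.le
    have h3 : q * (l₁ * J) ≤ J := by
      calc q * (l₁ * J) = (q * l₁) * J := by ring
        _ ≤ 1 * J := mul_le_mul_of_nonneg_right hql hJ0.le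
        _ = J := one_mul J
    nlinarith
  have b2 : D * √q ≤ J / (4 * V) := by
    have h1 : 4 * V * D / J * √q ≤ 1 := by
      have h2 : (4 * V * D / J * √q) ^ 2 ≤ 1 ^ 2 := by
        rw [mul_pow, Real.sq_sqrt hq0.le, one_pow]
        calc (4 * V * D / J) ^ 2 * q ≤ l₁ * q := mul_le_mul_of_nonneg_right hl2 hq0.le
          _ = q * l₁ := mul_comm _ _
          _ ≤ 1 := hql
      exact (sq_le_sq₀ (by positivity) zero_le_one).1 h2
    rw [le_div_iff₀ (by positivity)]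
    rw [div_mul_eq_mul_div, div_le_one hJ0] at h1
    linarith
  obtain ⟨g, hgdef⟩ : ∃ g : (Fin k → ℤ) → ℝ, g = fun z => G (rs (s + r) z) := ⟨_, rfl⟩
  have hg : Sy g := by
    intro π z
    rw [hgdef]
    exact hG.1 π (rs (s + r) z)
  have hg1 : ∀ z, |g z| ≤ 1 := by intro z; rw [hgdef]; exact hG.2.1 _
  -- the Markov property
  have hM := hMk s r hrr₀ ι a b g (gi A A' s) (fun z => by rw [hgdef]; exact hG0 _)
    (fun z => (le_abs_self _).trans (hg1 z)) (by
    intro z w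
    rw [hgdef]
    refine (hG.2.2 _ _).trans ?_
    have e : ∀ i, |rs (s + r) z i - rs (s + r) w i| = |(z i : ℝ) - w i| / √((s + r : ℕ) : ℝ) := by
      intro i
      unfold rs
      rw [← sub_div, abs_div, abs_of_nonneg (Real.sqrt_nonneg _)]
      congr 2
      ring
    simp only [e]
    rw [← sum_div, ← mul_div_assoc, div_mul_eq_mul_div]
    have h1 : 0 ≤ ∑ i, |(z i : ℝ) - w i| := sum_nonneg fun i _ => abs_nonneg _
    have h2 : √(r : ℝ) ≤ √((s + r : ℕ) : ℝ) := by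
      apply Real.sqrt_le_sqrt
      push_cast
      linarith
    gcongr) (gi_nonneg A A' s) (gi_le_one A A' s)
  -- the scaling
  obtain ⟨X, hX⟩ : ∃ X : ℝ, X = NG (fun z => g (fun i => z i + ((s / 2 : ℕ) : ℤ))) r (dl k) := ⟨_, rfl⟩
  have hX1 : |X - NG (fun z => G (rs r z)) r (dl k)| ≤ Λ * ((s : ℝ) / r + k / √(r : ℝ)) * (CW / √(r : ℝ) ^ nn k) := by
    rw [hX, ← NG_sub']
    have hd : ∀ z : Fin k → ℤ, |g (fun i => z i + ((s / 2 : ℕ) : ℤ)) - G (rs r z)| ≤
        (Λ * ((s : ℝ) / r + k / √(r : ℝ))) * wt r z ^ 1 := by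
      intro z
      rw [hgdef, pow_one, mul_assoc]
      refine (hG.2.2 _ _).trans ?_
      exact mul_le_mul_of_nonneg_left (rs_change hr1 z) hΛ
    refine (NG_abs_le hd r (dl k)).trans ?_
    rw [NG_mul']
    exact mul_le_mul_of_nonneg_left (hWt r hr1) (by positivity)
  have hX2 : J / 2 ≤ √(r : ℝ) ^ nn k * X := by
    have h1 := hr₁ r hrr₁
    rw [Real.dist_eq, ← hJ] at h1
    have h2 : |√(r : ℝ) ^ nn k * X - √(r : ℝ) ^ nn k * NG (fun z => G (rs r z)) r (dl k)| ≤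
        Λ * CW * q + Λ * CW * k / √(r : ℝ) := by
      rw [← mul_sub, abs_mul, abs_of_pos (by positivity : 0 < √(r : ℝ) ^ nn k)]
      calc √(r : ℝ) ^ nn k * |X - NG (fun z => G (rs r z)) r (dl k)| ≤
            √(r : ℝ) ^ nn k * (Λ * ((s : ℝ) / r + k / √(r : ℝ)) * (CW / √(r : ℝ) ^ nn k)) := by gcongr
        _ = _ := by
          rw [hq]
          field_simp
    have h3 : Λ * CW * k / √(r : ℝ) ≤ J / 8 := by
      have h4 : 8 * Λ * CW * k / J ≤ √(r : ℝ) := by
        apply Real.le_sqrt_of_sq_le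
        exact hr₂.trans (by exact_mod_cast hrr₂)
      rw [div_le_iff₀ hJ0] at h4
      rw [div_le_iff₀ hrs0]
      linarith
    have h4 := (abs_le.1 h2).1
    have h5 := (abs_lt.1 h1).1
    linarith
  -- good configurations
  have hgood : ∀ z : Fin k → ℤ, 2 * c₁ / √(r : ℝ) ^ nn k * (gi A A' s z * |vd z|) ≤ gi A A' s z * NG g r z := by
    intro z
    by_cases hz : Gd A A' s z
    · have e : gi A A' s z = 1 := by
        unfold gi
        rw [if_pos hz]
      rw [e, one_mul, one_mul]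
      have h1 := NG_point hSy hCF hFar hg hg1 hs1 hr1 z
      rw [← hX, ← hVdef, ← hq] at h1
      have h2 := (abs_le.1 h1).1
      have hw0 : 0 ≤ wt s z := zero_le_one.trans (wt_one_le s z)
      have h3 : wt s z ^ (nn k + 1) ≤ A ^ (nn k + 1) := pow_le_pow_left₀ hw0 hz.1 _
      have h4 := vd_good hApos' hz
      rw [div_pow, div_le_iff₀ (by positivity)] at h4
      have h5 : CF * (1 + k) * √q ^ (nn k + 1) * wt s z ^ (nn k + 1) ≤
          D * √q * (|vd z| / √(r : ℝ) ^ nn k) := by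
        have h6 : √q ^ nn k = √(s : ℝ) ^ nn k / √(r : ℝ) ^ nn k := by
          rw [hq, hsr', div_pow]
        calc CF * (1 + k) * √q ^ (nn k + 1) * wt s z ^ (nn k + 1) ≤
              CF * (1 + k) * √q ^ (nn k + 1) * A ^ (nn k + 1) := by gcongr
          _ = CF * (1 + k) * A ^ (nn k + 1) * √q * (√(s : ℝ) ^ nn k / √(r : ℝ) ^ nn k) := by
              rw [← h6]
              ring
          _ ≤ CF * (1 + k) * A ^ (nn k + 1) * √q * ((|vd z| * A' ^ nn k) / √(r : ℝ) ^ nn k) := by gcongr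
          _ = _ := by
              rw [hD]
              ring
      have h6 : D * √q * (|vd z| / √(r : ℝ) ^ nn k) ≤ J / (4 * V) * (|vd z| / √(r : ℝ) ^ nn k) :=
        mul_le_mul_of_nonneg_right b2 (by positivity)
      have h7 : J / (2 * V) * (|vd z| / √(r : ℝ) ^ nn k) ≤ |vd z| * (X / V) := by
        have h8 : J / 2 / √(r : ℝ) ^ nn k ≤ X := by
          rw [div_le_iff₀ (by positivity)]
          linarith
        calc J / (2 * V) * (|vd z| / √(r : ℝ) ^ nn k) = |vd z| * (J / 2 / √(r : ℝ) ^ nn k / V) := by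
              field_simp
          _ ≤ |vd z| * (X / V) := by gcongr
      have h8 : 2 * c₁ / √(r : ℝ) ^ nn k * |vd z| ≤ J / (4 * V) * (|vd z| / √(r : ℝ) ^ nn k) := by
        have h9 : 2 * c₁ ≤ J / (4 * V) := by
          have e : J / (4 * V) = 2 * (J / (8 * V)) := by
            field_simp
            ring
          rw [e]
          linarith
        calc 2 * c₁ / √(r : ℝ) ^ nn k * |vd z| = 2 * c₁ * (|vd z| / √(r : ℝ) ^ nn k) := by ring
          _ ≤ _ := mul_le_mul_of_nonneg_right h9 (by positivity)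
      have e2 : J / (2 * V) = J / (4 * V) + J / (4 * V) := by
        field_simp
        ring
      rw [e2, add_mul] at h7
      linarith
    · have e : gi A A' s z = 0 := by
        unfold gi
        rw [if_neg hz]
      rw [e, zero_mul, zero_mul, mul_zero]
  have hmain : 2 * c₁ * √((s : ℝ) / r) ^ nn k * Pool.Agent.Q74.GO.hg A A' a b s ≤
      ev a b s (fun z => gi A A' s z * NG g r z) := by
    have h1 := ev_mono a b s hgood
    rw [ev_mul] at h1
    refine le_trans (le_of_eq ?_) h1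
    unfold Pool.Agent.Q74.GO.hg
    rw [hsr', div_pow]
    field_simp
  -- the error
  have hhg0 : 0 ≤ Pool.Agent.Q74.GO.hg A A' a b s := by
    unfold Pool.Agent.Q74.GO.hg
    exact div_nonneg (ev_nonneg _ _ _ fun z => mul_nonneg (gi_nonneg _ _ _ _) (abs_nonneg _)) (by positivity)
  have herr : ε * ev a b s (gi A A' s) ≤ c₁ * √((s : ℝ) / r) ^ nn k * Pool.Agent.Q74.GO.hg A A' a b s := by
    have h1 := mul_le_mul_of_nonneg_left (ev_gi_le a b (A := A) hApos' hs1) hε0.le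
    refine h1.trans ?_
    rw [← mul_assoc]
    apply mul_le_mul_of_nonneg_right _ hhg0
    have e : ε * A' ^ nn k = c₁ * (1 / √(L₂ : ℝ)) ^ nn k := by
      rw [hε, div_pow, one_pow]
      field_simp
    rw [e]
    apply mul_le_mul_of_nonneg_left _ hc₁0.le
    apply pow_le_pow_left₀ (by positivity)
    rw [hsr', div_le_div_iff₀ hsL hrs0, one_mul, ← Real.sqrt_mul hs0.le]
    apply Real.sqrt_le_sqrt
    linarith
  -- the last step
  have hup : ev a b (s + r) g ≤ Pool.Agent.Q74.GO.hg A A' a b (s + r) := by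
    have h1 : ev a b (s + r) g ≤
        ev a b (s + r) (fun z => (√((s + r : ℕ) : ℝ) ^ nn k)⁻¹ * (gi A A' (s + r) z * |vd z|)) := by
      apply ev_mono
      intro z
      rw [hgdef]
      exact test_le hA₀ hA hA' hGv hsup (hs1.trans (Nat.le_add_right _ _)) z
    rw [ev_mul] at h1
    unfold Pool.Agent.Q74.GO.hg
    rw [div_eq_inv_mul]
    exact h1
  have hM' := hM.trans hup
  nlinarith

end Pool.Agent.Q121.GO
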