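import Pool.Agent.Q74.GO.Stm2
import Pool.Agent.Q14.GO.Up

/-! # Project GO of helper74, second part: the configurations which are not good (JOB GO-UpB) -/

set_option autoImplicit false

namespace Pool.Agent.Q121.GO

open Finset
open Pool.Agent.Q74.KP Pool.Agent.Q74.SF Pool.Agent.Q74.GO Pool.Agent.Q14.GO
open Pool.Agent.Q74.AR (oc bE Td ocd bE_mono bE_mul bE_add bE_const)

variable {k : ℕ}

/-- the pairs of indices -/
def prs (k : ℕ) : Finset (Fin k × Fin k) := univ.filter (fun p => p.1 ≠ p.2)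

/-- a small difference -/
noncomputable def cp (A' : ℝ) (t : ℕ) (d : ℤ) : ℝ := max 0 (2 - A' * |(d : ℝ)| / √(t : ℝ))

/-- some gap is small -/
noncomputable def gp (A' : ℝ) (t : ℕ) (z : Fin k → ℤ) : ℝ := min 1 (∑ p ∈ prs k, cp A' t (z p.2 - z p.1))

theorem cp_nonneg (A' : ℝ) (t : ℕ) (d : ℤ) : 0 ≤ cp A' t d := le_max_left _ _

theorem gp_nonneg (A' : ℝ) (t : ℕ) (z : Fin k → ℤ) : 0 ≤ gp A' t z :=
  le_min zero_le_one (sum_nonneg fun _ _ => cp_nonneg _ _ _)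

theorem gp_le_one (A' : ℝ) (t : ℕ) (z : Fin k → ℤ) : gp A' t z ≤ 1 := min_le_left _ _

theorem cp_ge {A' : ℝ} {t : ℕ} {d : ℤ} (h : A' * |(d : ℝ)| / √(t : ℝ) ≤ 1) : 1 ≤ cp A' t d := by
  unfold cp
  refine le_trans ?_ (le_max_right _ _)
  linarith

theorem cp_le {A' : ℝ} (hA : 0 < A') {t : ℕ} (ht : 0 < √(t : ℝ)) (d : ℤ) :
    cp A' t d ≤ 2 * (if d.natAbs < ⌈2 * √(t : ℝ) / A'⌉₊ then 1 else 0) := by
  have h0 : 0 ≤ A' * |(d : ℝ)| / √(t : ℝ) := by positivity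
  unfold cp
  split_ifs with h
  · rw [mul_one]
    exact max_le (by norm_num) (by linarith)
  · rw [mul_zero]
    apply max_le le_rfl
    rw [not_lt] at h
    have h1 : 2 * √(t : ℝ) / A' ≤ (d.natAbs : ℝ) := (Nat.le_ceil _).trans (by exact_mod_cast h)
    rw [Nat.cast_natAbs, Int.cast_abs, div_le_iff₀ hA] at h1
    have h2 : 2 ≤ A' * |(d : ℝ)| / √(t : ℝ) := by
      rw [le_div_iff₀ ht]
      linarith
    linarith

theorem amz (a b : ℝ) : |max 0 a - max 0 b| ≤ |a - b| := by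
  have h := abs_max_sub_max_le_max 0 a 0 b
  rwa [sub_self, abs_zero, max_eq_right (abs_nonneg (a - b))] at h

theorem cp_lip {A' : ℝ} (hA : 0 ≤ A') (t : ℕ) (d e : ℤ) :
    |cp A' t d - cp A' t e| ≤ A' / √(t : ℝ) * |(d : ℝ) - e| := by
  unfold cp
  refine (amz _ _).trans ?_
  have e1 : 2 - A' * |(d : ℝ)| / √(t : ℝ) - (2 - A' * |(e : ℝ)| / √(t : ℝ)) =
      A' / √(t : ℝ) * (|(e : ℝ)| - |(d : ℝ)|) := by ring
  rw [e1, abs_mul, abs_of_nonneg (div_nonneg hA (Real.sqrt_nonneg _))]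
  refine mul_le_mul_of_nonneg_left ?_ (div_nonneg hA (Real.sqrt_nonneg _))
  rw [abs_sub_comm (d : ℝ)]
  exact abs_abs_sub_abs_le _ _

theorem gp_lip {A' : ℝ} (hA : 0 ≤ A') (s r : ℕ) (hr : 1 ≤ r) (z w : Fin k → ℤ) :
    |gp A' (s + r) z - gp A' (s + r) w| ≤ (2 * k * A') / √(r : ℝ) * ∑ i, |(z i : ℝ) - w i| := by
  have hr0 : (0 : ℝ) < r := by exact_mod_cast hr
  have hsr0 : 0 < √(r : ℝ) := Real.sqrt_pos.2 hr0
  have hle : √(r : ℝ) ≤ √((s + r : ℕ) : ℝ) := by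
    apply Real.sqrt_le_sqrt
    push_cast
    have : (0 : ℝ) ≤ s := Nat.cast_nonneg _
    linarith
  have h1 : |gp A' (s + r) z - gp A' (s + r) w| ≤
      |(∑ p ∈ prs k, cp A' (s + r) (z p.2 - z p.1)) - ∑ p ∈ prs k, cp A' (s + r) (w p.2 - w p.1)| := by
    have := abs_min_sub_min_le_max 1 (∑ p ∈ prs k, cp A' (s + r) (z p.2 - z p.1)) 1
      (∑ p ∈ prs k, cp A' (s + r) (w p.2 - w p.1))
    rw [sub_self, abs_zero, max_eq_right (abs_nonneg _)] at this
    exact this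
  refine h1.trans ?_
  rw [← sum_sub_distrib]
  refine (abs_sum_le_sum_abs _ _).trans ?_
  have h2 : ∀ p : Fin k × Fin k, |cp A' (s + r) (z p.2 - z p.1) - cp A' (s + r) (w p.2 - w p.1)| ≤
      A' / √(r : ℝ) * (|(z p.2 : ℝ) - w p.2| + |(z p.1 : ℝ) - w p.1|) := by
    intro p
    refine (cp_lip hA _ _ _).trans ?_
    apply mul_le_mul (div_le_div_of_nonneg_left hA hsr0 hle) _ (abs_nonneg _) (by positivity)
    have e : (((z p.2 - z p.1 : ℤ)) : ℝ) - ((w p.2 - w p.1 : ℤ) : ℝ) =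
        ((z p.2 : ℝ) - w p.2) - ((z p.1 : ℝ) - w p.1) := by
      push_cast
      ring
    rw [e]
    exact abs_sub _ _
  have h3 : ∑ p ∈ prs k, |cp A' (s + r) (z p.2 - z p.1) - cp A' (s + r) (w p.2 - w p.1)| ≤
      ∑ p : Fin k × Fin k, A' / √(r : ℝ) * (|(z p.2 : ℝ) - w p.2| + |(z p.1 : ℝ) - w p.1|) := by
    refine (sum_le_sum fun p _ => h2 p).trans ?_
    exact sum_le_univ_sum_of_nonneg fun p => by positivity
  refine h3.trans (le_of_eq ?_)
  rw [← mul_sum, Fintype.sum_prod_type]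
  simp only [sum_add_distrib, sum_const, card_univ, Fintype.card_fin, nsmul_eq_mul]
  rw [← mul_sum]
  ring

theorem cp_act {A' : ℝ} (hA : 1 ≤ A') {s r : ℕ} (hr : 1 ≤ r) (hsr : s ≤ r) {p : Fin k × Fin k} (hp : p.1 ≠ p.2)
    (a : Fin k → ℤ) :
    act k (PP k ^ r) (fun z => cp A' (s + r) (z p.2 - z p.1)) a ≤ 32 / A' + 8 / √(r : ℝ) := by
  have hA0 : 0 < A' := by linarith
  have hr0 : (0 : ℝ) < r := by exact_mod_cast hr
  have hsr0 : 0 < √(r : ℝ) := Real.sqrt_pos.2 hr0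
  have hle : √(r : ℝ) ≤ √((s + r : ℕ) : ℝ) := by
    apply Real.sqrt_le_sqrt
    push_cast
    have : (0 : ℝ) ≤ s := Nat.cast_nonneg _
    linarith
  have hge : √((s + r : ℕ) : ℝ) ≤ 2 * √(r : ℝ) := by
    have e : 2 * √(r : ℝ) = √(2 ^ 2 * (r : ℝ)) := by
      rw [Real.sqrt_mul (by norm_num), Real.sqrt_sq (by norm_num)]
    rw [e]
    apply Real.sqrt_le_sqrt
    push_cast
    have : (s : ℝ) ≤ r := by exact_mod_cast hsr
    linarith
  set R : ℕ := ⌈2 * √((s + r : ℕ) : ℝ) / A'⌉₊ with hR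
  have hR1 : (R : ℝ) ≤ 4 * √(r : ℝ) / A' + 1 := by
    have h1 : (R : ℝ) ≤ 2 * √((s + r : ℕ) : ℝ) / A' + 1 := (Nat.ceil_lt_add_one (by positivity)).le
    have h2 : 2 * √((s + r : ℕ) : ℝ) / A' ≤ 4 * √(r : ℝ) / A' :=
      div_le_div_of_nonneg_right (by linarith) hA0.le
    linarith
  rw [act_two hp r (cp A' (s + r)) a]
  have h1 : ∀ x : ℕ, bE r (fun y => cp A' (s + r) (a p.2 + y - (a p.1 + x))) ≤
      2 * (2 * R * (2 / √((r : ℝ) + 1))) := by
    intro x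
    have h2 : bE r (fun y => cp A' (s + r) (a p.2 + y - (a p.1 + x))) ≤
        bE r (fun y => 2 * (if ((a p.2 - a p.1 - x) + (y : ℤ)).natAbs < R then 1 else 0)) := by
      apply bE_mono
      intro y
      have h3 := cp_le hA0 (hsr0.trans_le hle) (a p.2 + y - (a p.1 + x))
      have e : a p.2 + (y : ℤ) - (a p.1 + x) = (a p.2 - a p.1 - x) + (y : ℤ) := by ring
      rw [e] at h3 ⊢
      exact h3
    rw [bE_mul] at h2
    have h4 := bE_ball r R (a p.2 - a p.1 - x)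
    linarith
  have h2 := bE_mono r _ _ h1
  rw [bE_const] at h2
  refine h2.trans ?_
  have h3 : 2 / √((r : ℝ) + 1) ≤ 2 / √(r : ℝ) :=
    div_le_div_of_nonneg_left (by norm_num) hsr0 (Real.sqrt_le_sqrt (by linarith))
  have hR0 : (0 : ℝ) ≤ R := Nat.cast_nonneg _
  calc 2 * (2 * (R : ℝ) * (2 / √((r : ℝ) + 1))) ≤ 2 * (2 * (4 * √(r : ℝ) / A' + 1) * (2 / √(r : ℝ))) := by
        apply mul_le_mul_of_nonneg_left _ (by norm_num)
        apply mul_le_mul (by linarith) h3 (by positivity) (by positivity)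
    _ = _ := by
        field_simp
        ring

theorem gp_NG {A' : ℝ} (hA : 1 ≤ A') {s r : ℕ} (hr : 1 ≤ r) (hsr : s ≤ r) (a : Fin k → ℤ) :
    NG (gp A' (s + r)) r a ≤ (k : ℝ) ^ 2 * (32 / A' + 8 / √(r : ℝ)) := by
  have hA0 : 0 < A' := by linarith
  refine (NG_free (gp_nonneg A' (s + r)) r a).trans ?_
  have h1 : act k (PP k ^ r) (gp A' (s + r)) a ≤
      act k (PP k ^ r) (fun z => ∑ p ∈ prs k, cp A' (s + r) (z p.2 - z p.1)) a :=
    act_mono r (fun z => min_le_right _ _) a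
  have e1 : (fun z : Fin k → ℤ => ∑ p ∈ prs k, cp A' (s + r) (z p.2 - z p.1)) =
      ∑ p ∈ prs k, fun z : Fin k → ℤ => cp A' (s + r) (z p.2 - z p.1) := by
    funext z
    rw [Finset.sum_apply]
  rw [e1, map_sum, Finset.sum_apply] at h1
  refine h1.trans ?_
  have h2 : ∀ p ∈ prs k, act k (PP k ^ r) (fun z => cp A' (s + r) (z p.2 - z p.1)) a ≤
      32 / A' + 8 / √(r : ℝ) := by
    intro p hp
    exact cp_act hA hr hsr (mem_filter.1 hp).2 a
  refine (sum_le_card_nsmul _ _ _ h2).trans ?_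
  rw [nsmul_eq_mul]
  apply mul_le_mul_of_nonneg_right _ (by positivity)
  have h3 : (prs k).card ≤ k ^ 2 := by
    refine (card_filter_le _ _).trans ?_
    rw [card_univ, Fintype.card_prod, Fintype.card_fin, sq]
  exact_mod_cast h3

theorem bad_le {A A' : ℝ} (hA : 1 ≤ A) (hA' : 1 ≤ A') (m : ℕ) {t : ℕ} (ht : 1 ≤ t) (z : Fin k → ℤ) :
    (1 - gi A A' t z) * wt t z ^ m ≤ xw A m t z + A ^ m * gp A' t z := by
  have hw := one_le_wt t z
  have ht0 : 0 < √(t : ℝ) := Real.sqrt_pos.2 (by exact_mod_cast ht)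
  have h1 := xw_nonneg A m t z
  have h2 := gp_nonneg A' t z
  have h3 : 0 ≤ A ^ m := by positivity
  unfold gi
  split_ifs with h
  · rw [sub_self, zero_mul]
    positivity
  · rw [sub_zero, one_mul]
    by_cases hA2 : A < wt t z
    · have e : xw A m t z = wt t z ^ m := by
        unfold xw
        rw [if_pos hA2]
      rw [e]
      have := mul_nonneg h3 h2
      linarith
    · rw [not_lt] at hA2
      have h4 : ∃ i j, i ≠ j ∧ |(z i : ℝ) - z j| < √(t : ℝ) / A' := by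
        by_contra hcon
        push Not at hcon
        exact h ⟨hA2, hcon⟩
      obtain ⟨i, j, hij, hlt⟩ := h4
      have h5 : 1 ≤ cp A' t (z j - z i) := by
        apply cp_ge
        have hA0 : 0 < A' := by linarith
        rw [div_le_one ht0]
        rw [lt_div_iff₀ hA0] at hlt
        push_cast
        rw [abs_sub_comm, mul_comm]
        exact hlt.le
      have h6 : 1 ≤ gp A' t z := by
        apply le_min le_rfl
        have hmem : (i, j) ∈ prs k := mem_filter.2 ⟨mem_univ _, hij⟩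
        have h9 := single_le_sum (f := fun p : Fin k × Fin k => cp A' t (z p.2 - z p.1))
          (fun p _ => cp_nonneg A' t (z p.2 - z p.1)) hmem
        exact h5.trans h9
      have h7 : wt t z ^ m ≤ A ^ m := pow_le_pow_left₀ (by linarith) hA2 m
      have h8 : A ^ m * 1 ≤ A ^ m * gp A' t z := mul_le_mul_of_nonneg_left h6 h3
      linarith

/-- JOB GO-UpB -/
theorem upB : S_UpBJ := by
  intro hM hG hE k m
  obtain ⟨C₂, hC₂, h2⟩ := excess hM hE k m
  refine ⟨C₂ + 32 * (k : ℝ) ^ 2, by positivity, fun A A' ε hA hA' hε => ?_⟩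
  have hA0 : 0 < A := by linarith
  have hA0' : 0 < A' := by linarith
  obtain ⟨ρ, hρ, r₀, h3⟩ := hG k (2 * k * A') (ε / 2) (by positivity) (by positivity)
  obtain ⟨n, hn⟩ := exists_nat_ge ((16 * (k : ℝ) ^ 2 / ε) ^ 2)
  refine ⟨ρ, hρ, max 1 (max r₀ n), le_max_left _ _, fun s r hs hsr ι _ a b => ?_⟩
  have hs1 : 1 ≤ s := (le_max_left _ _).trans hs
  have hr1 : 1 ≤ r := hs1.trans hsr
  have hr0' : r₀ ≤ r := (((le_max_left _ _).trans (le_max_right _ _)).trans hs).trans hsr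
  have hrn : n ≤ r := (((le_max_right _ _).trans (le_max_right _ _)).trans hs).trans hsr
  have hsq : 0 < √(s : ℝ) := Real.sqrt_pos.2 (by exact_mod_cast hs1)
  have hrq : 0 < √(r : ℝ) := Real.sqrt_pos.2 (by exact_mod_cast hr1)
  have hdiv : √((s : ℝ) / r) = √(s : ℝ) / √(r : ℝ) := Real.sqrt_div (Nat.cast_nonneg _) _
  have hsmall : 8 * (k : ℝ) ^ 2 / √(r : ℝ) ≤ ε / 2 := by
    have h4 : 16 * (k : ℝ) ^ 2 / ε ≤ √(r : ℝ) := by
      apply Real.le_sqrt_of_sq_le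
      exact hn.trans (by exact_mod_cast hrn)
    rw [div_le_iff₀ hε] at h4
    rw [div_le_iff₀ hrq]
    linarith
  -- the part of the small gaps
  have h4 := h3 s r hr0' ι a b (gp A' (s + r)) (fun z => by
    rw [abs_of_nonneg (gp_nonneg _ _ _)]
    exact gp_le_one _ _ _) (fun z w => gp_lip hA0'.le s r hr1 z w)
  have h5 : ev a b s (NG (gp A' (s + r)) r) ≤ (k : ℝ) ^ 2 * (32 / A' + 8 / √(r : ℝ)) * pp a b s := by
    have h6 : ev a b s (NG (gp A' (s + r)) r) ≤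
        ev a b s (fun _ => (k : ℝ) ^ 2 * (32 / A' + 8 / √(r : ℝ)) * 1) := by
      apply ev_mono
      intro z
      rw [mul_one]
      exact gp_NG hA' hr1 hsr z
    rw [ev_mul] at h6
    exact h6
  have h6 : ev a b (s + r) (gp A' (s + r)) ≤ (32 * (k : ℝ) ^ 2 / A' + ε) * pp a b s + 2 * tl ρ a b s r := by
    have h7 := (le_abs_self _).trans h4
    have hpp : 0 ≤ pp a b s := by
      have := ev_mono a b s (g := fun _ => (0 : ℝ) * 1) (h := fun _ => 1) (fun z => by norm_num)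
      rw [ev_mul, zero_mul] at this
      exact this
    have h8 : (k : ℝ) ^ 2 * (32 / A' + 8 / √(r : ℝ)) * pp a b s ≤ (32 * (k : ℝ) ^ 2 / A' + ε / 2) * pp a b s := by
      apply mul_le_mul_of_nonneg_right _ hpp
      have e : (k : ℝ) ^ 2 * (32 / A' + 8 / √(r : ℝ)) = 32 * (k : ℝ) ^ 2 / A' + 8 * (k : ℝ) ^ 2 / √(r : ℝ) := by
        ring
      rw [e]
      linarith
    nlinarith
  -- the part of the large weights
  have h7 : ev a b (s + r) (xw A m (s + r)) ≤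
      C₂ / A * pp a b s + C₂ * (√((s : ℝ) / r) ^ m * ev a b s (fun z => wt s z ^ m)) := by
    have h8 : ev a b (s + r) (xw A m (s + r)) ≤ ev a b s (fun z => C₂ / A * 1 +
        C₂ * ((√(s : ℝ) / √(r : ℝ)) ^ m * wt s z ^ m)) := by
      apply ev_mono'
      intro x
      refine (h2 s r hs1 hsr A hA (a x) (b x)).trans_eq ?_
      simp only [mul_one]
    rw [ev_add, ev_mul, ev_mul, ev_mul] at h8
    rw [hdiv]
    exact h8
  have h8 : ev a b (s + r) (fun z => (1 - gi A A' (s + r) z) * wt (s + r) z ^ m) ≤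
      ev a b (s + r) (xw A m (s + r)) + A ^ m * ev a b (s + r) (gp A' (s + r)) := by
    rw [← ev_mul, ← ev_add]
    exact ev_mono a b (s + r) fun z => bad_le hA hA' m (hr1.trans (Nat.le_add_left _ _)) z
  have hpw : pp a b s ≤ ev a b s (fun z => wt s z ^ m) := by
    apply ev_mono
    intro z
    exact one_le_pow₀ (one_le_wt s z)
  set W : ℝ := ev a b s (fun z => wt s z ^ m) with hW
  have hpp : 0 ≤ pp a b s := by
    have := ev_mono a b s (g := fun _ => (0 : ℝ) * 1) (h := fun _ => 1) (fun z => by norm_num)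
    rw [ev_mul, zero_mul] at this
    exact this
  have hW0 : 0 ≤ W := hpp.trans hpw
  have h9 : C₂ / A * pp a b s ≤ C₂ / A * W := mul_le_mul_of_nonneg_left hpw (by positivity)
  have h10 : (32 * (k : ℝ) ^ 2 / A' + ε) * pp a b s ≤ (32 * (k : ℝ) ^ 2 / A' + ε) * W :=
    mul_le_mul_of_nonneg_left hpw (by positivity)
  have h11 : A ^ m * ev a b (s + r) (gp A' (s + r)) ≤
      A ^ m * ((32 * (k : ℝ) ^ 2 / A' + ε) * W + 2 * tl ρ a b s r) :=
    mul_le_mul_of_nonneg_left (by linarith) (by positivity)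
  have hv : 0 ≤ √((s : ℝ) / r) ^ m := by positivity
  have h12 : C₂ / A * W ≤ (C₂ + 32 * (k : ℝ) ^ 2) / A * W := by
    apply mul_le_mul_of_nonneg_right _ hW0
    apply div_le_div_of_nonneg_right _ hA0.le
    have : 0 ≤ 32 * (k : ℝ) ^ 2 := by positivity
    linarith
  have h13 : C₂ * (√((s : ℝ) / r) ^ m * W) ≤ (C₂ + 32 * (k : ℝ) ^ 2) * √((s : ℝ) / r) ^ m * W := by
    rw [mul_assoc]
    apply mul_le_mul_of_nonneg_right _ (by positivity)
    have : 0 ≤ 32 * (k : ℝ) ^ 2 := by positivity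
    linarith
  have h14 : A ^ m * ((32 * (k : ℝ) ^ 2 / A' + ε) * W) ≤
      A ^ m * (((C₂ + 32 * (k : ℝ) ^ 2) / A' + ε) * W) := by
    apply mul_le_mul_of_nonneg_left _ (by positivity)
    apply mul_le_mul_of_nonneg_right _ hW0
    have : 32 * (k : ℝ) ^ 2 / A' ≤ (C₂ + 32 * (k : ℝ) ^ 2) / A' :=
      div_le_div_of_nonneg_right (by linarith) hA0'.le
    linarith
  have e : ((C₂ + 32 * (k : ℝ) ^ 2) / A + (C₂ + 32 * (k : ℝ) ^ 2) * √((s : ℝ) / r) ^ m +
      A ^ m * ((C₂ + 32 * (k : ℝ) ^ 2) / A' + ε)) * W + A ^ m * (2 * tl ρ a b s r) =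
      (C₂ + 32 * (k : ℝ) ^ 2) / A * W + (C₂ + 32 * (k : ℝ) ^ 2) * √((s : ℝ) / r) ^ m * W +
      (A ^ m * (((C₂ + 32 * (k : ℝ) ^ 2) / A' + ε) * W) + A ^ m * (2 * tl ρ a b s r)) := by ring
  rw [e]
  have e2 : A ^ m * ((32 * (k : ℝ) ^ 2 / A' + ε) * W + 2 * tl ρ a b s r) =
      A ^ m * ((32 * (k : ℝ) ^ 2 / A' + ε) * W) + A ^ m * (2 * tl ρ a b s r) := by ring
  rw [e2] at h11
  linarith

end Pool.Agent.Q121.GO
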